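import Pool.Agent.V11246.BlkZ

/-!
# A space that is not N-compact although its ultrafilters of c-delta sets are fixed

Let `a` be, in a model of ZF, a countable union of countable sets that is not a countable union of
finite sets. Let `x` be the Cantor cube of the subsets of `a` without the empty set. The space `x`
is a zero-dimensional T1 space. It is not N-compact: by compactness-like properties of the cubes
that hold in ZF, a continuous function from `x` to the discrete space of the natural numbers is
constant near the missing point, so the missing point is in the closure of the image of every
embedding. On the other hand, let `F` be an ultrafilter in the family of the intersections of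
countable families of clopen sets, with the countable intersection property. For every `n` the
points of `x` with the same trace as a given point on the `n`-th countable set of the union form
such an intersection, and `F` contains exactly one of these sets; so the traces define a point of
the cube. If it were the missing point, then the countable intersection property would be
violated, so `F` is fixed.
-/

namespace Pool.Agent.Results.MP_6a4164_lc.NotNCompact

open FirstOrder FirstOrder.Language
open Pool.Agent.Helper672.Plain (LSet Zermelo)
open Pool.Agent.H635Amen (ZF)
open Pool.Agent.H310Top (IsTopology IsCuf)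
open Pool.Agent.V11246

universe u

/-- In every model of Zermelo set theory with a countable union of countable sets that is not a
cuf set there is a space as in the question that is not N-compact. For every model of ZF there is
a model of ZF with such a set and such a space. -/
theorem result :
    (∀ (N : Type u) [LSet.Structure N] [Zermelo N] (a : N), IsCtblUnion a → ¬ IsCuf a →
      ∃ x t : N, IsTopology t x ∧ IsT1 t x ∧ IsZeroDim t x ∧
        (∀ F, IsCdUltra t x F → HasCip F → IsFixed F) ∧ ¬ IsNCompact t x) ∧
    ∀ (M : Type u) [LSet.Structure M], ZF M → ∃ (N : Type u) (_ : LSet.Structure N), ZF N ∧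
      (∃ a : N, IsCtblUnion a ∧ ¬ IsCuf a) ∧
      ∃ x t : N, IsTopology t x ∧ IsT1 t x ∧ IsZeroDim t x ∧
        (∀ F, IsCdUltra t x F → HasCip F → IsFixed F) ∧ ¬ IsNCompact t x := by
  have h : ∀ (N : Type u) [LSet.Structure N] [Zermelo N] (a : N), IsCtblUnion a → ¬ IsCuf a →
      ∃ x t : N, IsTopology t x ∧ IsT1 t x ∧ IsZeroDim t x ∧
        (∀ F, IsCdUltra t x F → HasCip F → IsFixed F) ∧ ¬ IsNCompact t x :=
    fun N _ _ a => Pool.Agent.Helper672.ZFA.V246.space_of_union
  refine ⟨h, fun M _ hM => ?_⟩
  obtain ⟨N, hL, hZ, a, h1, h2⟩ := Pool.Agent.Helper672.ZFA.V246.exists_union M hM
  exact ⟨N, hL, hZ, ⟨a, h1, h2⟩, h N a h1 h2⟩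

end Pool.Agent.Results.MP_6a4164_lc.NotNCompact
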